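import Pool.Agent.Helper37.OF.St2

/-!
# Project OF, module LVN: Levin's theorem (equations with positive exponents)
-/

set_option autoImplicit false

namespace Pool.Agent.Helper34.OF

open Pool.Agent.Helper37.OF Monoid Pool.Agent.Helper4.FS

universe u v w x

section

variable {H : Type u} [Group H]

/-- product of `f (a + k)`, `k < m` -/
def pr (f : ℤ → H) (a : ℤ) (m : ℕ) : H := ((List.range m).map (fun k : ℕ => f (a + k))).prod

theorem pr_zero (f : ℤ → H) (a : ℤ) : pr f a 0 = 1 := by
  simp [pr]

theorem pr_succ (f : ℤ → H) (a : ℤ) (m : ℕ) : pr f a (m + 1) = f a * pr f (a + 1) m := by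
  unfold pr
  rw [List.range_succ_eq_map, List.map_cons, List.prod_cons, List.map_map]
  congr 1
  · simp
  · congr 1
    apply List.map_congr_left
    intro k _
    simp only [Function.comp]
    congr 1
    push_cast
    ring

theorem pr_succ' (f : ℤ → H) (a : ℤ) (m : ℕ) : pr f a (m + 1) = pr f a m * f (a + m) := by
  unfold pr
  rw [List.range_succ, List.map_append, List.prod_append]
  simp

theorem pr_rot {f : ℤ → H} {n : ℕ} (hf : ∀ k, f (k + n) = f k) (a : ℤ) :
    pr f a n = 1 ↔ pr f (a + 1) n = 1 := by
  have h : f a * pr f (a + 1) n = pr f a n * f a := by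
    rw [← pr_succ, pr_succ', hf]
  constructor
  · intro h1
    rw [h1, one_mul] at h
    exact mul_eq_left.mp h
  · intro h1
    rw [h1, mul_one] at h
    exact mul_eq_right.mp h.symm

theorem pr_rot_all {f : ℤ → H} {n : ℕ} (hf : ∀ k, f (k + n) = f k) (a b : ℤ)
    (h : pr f a n = 1) : pr f b n = 1 := by
  have key : ∀ m : ℕ, ∀ c : ℤ, pr f c n = 1 ↔ pr f (c + m) n = 1 := by
    intro m
    induction m with
    | zero => intro c; simp
    | succ m ih =>
      intro c
      rw [ih c, pr_rot hf (c + m)]
      have : c + (m : ℤ) + 1 = c + ((m + 1 : ℕ) : ℤ) := by push_cast; ring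
      rw [this]
  rcases le_total a b with hab | hab
  · have h1 := (key (b - a).toNat a).mp h
    have : a + ((b - a).toNat : ℤ) = b := by omega
    rwa [this] at h1
  · have h1 := (key (a - b).toNat b).mpr
    have : b + ((a - b).toNat : ℤ) = a := by omega
    rw [this] at h1
    exact h1 h

theorem pr_sym (u : ℤ → H) (s : ℤ) : ∀ (m : ℕ) (a : ℤ), 2 * a + m = s + 1 →
    pr (fun k => u k * (u (s - k))⁻¹) a m = 1
  | 0, a, _ => pr_zero _ _
  | 1, a, h => by
    rw [pr_succ, pr_zero, mul_one]
    have : s - a = a := by push_cast at h; omega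
    simp only [this, mul_inv_cancel]
  | (m + 2), a, h => by
    rw [pr_succ, pr_succ', pr_sym u s m (a + 1) (by push_cast at h; omega), one_mul]
    have h1 : a + 1 + (m : ℤ) = s - a := by push_cast at h; omega
    simp only [h1]
    have h2 : s - (s - a) = a := by ring
    rw [h2]
    group

/-- the product over one period -/
theorem pr_period (u : ℤ → H) (n : ℕ) (hu : ∀ k, u (k + n) = u k) (s : ℤ) :
    pr (fun k => u k * (u (s - k))⁻¹) 0 n = 1 := by
  have hu' : ∀ k, u (k - n) = u k := fun k => by
    rw [← hu (k - n)]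
    congr 1
    ring
  have hf : ∀ k : ℤ, (fun k => u k * (u (s - k))⁻¹) (k + n) = (fun k => u k * (u (s - k))⁻¹) k := by
    intro k
    simp only
    rw [hu, show s - (k + n) = s - k - n by ring, hu']
  rcases Int.even_or_odd (s + 1 - n) with h1 | h1
  · obtain ⟨a, ha⟩ := h1
    exact pr_rot_all hf a 0 (pr_sym u s n a (by omega))
  · rcases Int.even_or_odd (n : ℤ) with h2 | h2
    · obtain ⟨b, hb⟩ := h1
      obtain ⟨c, hc⟩ := h2
      have ha : ∃ a : ℤ, 2 * a + ((n + 1 : ℕ) : ℤ) = s + 1 := ⟨b - 0, by push_cast; omega⟩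
      obtain ⟨a, ha⟩ := ha
      have h3 := pr_sym u s (n + 1) a ha
      rw [pr_succ'] at h3
      have h4 : s - (a + (n : ℤ)) = a := by push_cast at ha; omega
      simp only [h4, hu, mul_inv_cancel, mul_one] at h3
      exact pr_rot_all hf a 0 h3
    · obtain ⟨b, hb⟩ := h1
      obtain ⟨c, hc⟩ := h2
      have h3 := pr_sym u (s + n) n (b + c + 1) (by omega)
      have h4 : (fun k => u k * (u (s + n - k))⁻¹) = (fun k => u k * (u (s - k))⁻¹) := by
        funext k
        rw [show s + n - k = s - k + n by ring, hu]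
      rw [h4] at h3
      exact pr_rot_all hf _ 0 h3

end

section

variable {H : Type u} [Group H] {n : ℕ}

/-- left multiplication in the first coordinate -/
def jj (n : ℕ) : H →* Equiv.Perm (H × ZMod n) where
  toFun h := ⟨fun p => (h * p.1, p.2), fun p => (h⁻¹ * p.1, p.2), fun p => by simp, fun p => by simp⟩
  map_one' := by
    ext p <;> simp
  map_mul' a b := by
    ext p <;> simp [mul_assoc]

/-- the new element -/
def tt (v : ZMod n → H) : Equiv.Perm (H × ZMod n) where
  toFun p := ((v p.2)⁻¹ * p.1, p.2 + 1)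
  invFun p := (v (p.2 - 1) * p.1, p.2 - 1)
  left_inv p := by simp
  right_inv p := by simp

theorem jj_apply (h : H) (p : H × ZMod n) : jj n h p = (h * p.1, p.2) := rfl

theorem tt_apply (v : ZMod n → H) (p : H × ZMod n) : tt v p = ((v p.2)⁻¹ * p.1, p.2 + 1) := rfl

theorem prod_apply (v : ZMod n → H) (f : ℤ → H) : ∀ (m : ℕ) (a : ℤ) (z : ℤ) (y : H),
    pr (fun k => jj n (f k) * tt v) a m (y, (z : ZMod n)) =
      (pr (fun k => f k * (v ((z + (a + m - 1 - k) : ℤ) : ZMod n))⁻¹) a m * y, (z + m : ZMod n)) := by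
  intro m
  induction m with
  | zero =>
    intro a z y
    rw [pr_zero, pr_zero]
    simp
  | succ m ih =>
    intro a z y
    rw [pr_succ, pr_succ, Equiv.Perm.mul_apply, ih, Equiv.Perm.mul_apply, tt_apply, jj_apply]
    have e1 : (fun k : ℤ => f k * (v ((z + (a + 1 + m - 1 - k) : ℤ) : ZMod n))⁻¹) =
        (fun k : ℤ => f k * (v ((z + (a + (m + 1 : ℕ) - 1 - k) : ℤ) : ZMod n))⁻¹) := by
      funext k
      have : z + (a + 1 + m - 1 - k) = z + (a + ((m + 1 : ℕ) : ℤ) - 1 - k) := by push_cast; ring
      rw [this]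
    rw [e1]
    have e2 : (z : ZMod n) + (m : ZMod n) =
        ((z + (a + ((m + 1 : ℕ) : ℤ) - 1 - a) : ℤ) : ZMod n) := by
      push_cast
      ring
    ext
    · simp only
      rw [← e2]
      group
    · simp only
      push_cast
      ring

end

theorem hLVN : StLVN.{u} := by
  intro H _ L hL
  classical
  set n := L.length with hn
  have hn0 : n ≠ 0 := by
    intro h
    exact hL (List.length_eq_zero_iff.mp h)
  let v : ZMod n → H := fun i => L.getD i.val 1
  let u' : ℤ → H := fun k => v (k : ZMod n)
  have hu : ∀ k, u' (k + n) = u' k := by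
    intro k
    simp only [u']
    congr 1
    push_cast
    simp
  have hLe : L = (List.range n).map (fun k : ℕ => u' k) := by
    apply List.ext_getElem
    · simp [hn]
    · intro k h1 h2
      simp only [List.getElem_map, List.getElem_range, u', v]
      rw [Int.cast_natCast, ZMod.val_natCast, Nat.mod_eq_of_lt (by rw [hn]; exact h1)]
      rw [List.getD_eq_getElem _ _ h1]
  refine ⟨Equiv.Perm (H × ZMod n), inferInstance, jj n, tt v, ?_, ?_⟩
  · intro a b hab
    have h1 : jj n a (1, 0) = jj n b (1, 0) := by rw [hab]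
    rw [jj_apply, jj_apply] at h1
    simpa using congrArg Prod.fst h1
  · have h1 : (L.map fun y => jj n y * tt v).prod = pr (fun k => jj n (u' k) * tt v) 0 n := by
      conv_lhs => rw [hLe]
      unfold pr
      rw [List.map_map]
      congr 1
      apply List.map_congr_left
      intro k _
      simp only [Function.comp, zero_add]
    rw [h1]
    apply Equiv.ext
    rintro ⟨y, i⟩
    obtain ⟨z, rfl⟩ := ZMod.intCast_surjective i
    rw [prod_apply]
    have h2 := pr_period u' n hu (z + (n - 1))
    have h3 : (fun k : ℤ => u' k * (v ((z + (0 + n - 1 - k) : ℤ) : ZMod n))⁻¹) =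
        (fun k : ℤ => u' k * (u' (z + (n - 1) - k))⁻¹) := by
      funext k
      simp only [u']
      congr 3
      push_cast
      ring
    rw [h3, h2]
    simp

end Pool.Agent.Helper34.OF
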